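import Pool.Agent.Q173.OG.Rigid

/-!
# Adapted bases and purity of products
-/

set_option autoImplicit false

open Module TensorProduct

namespace Pool.Agent.Q173.CP

universe u v w

open Pool.Agent.Y143 Pool.Agent.Y163.MW Pool.Agent.Y163.MW.Coh Pool.Agent.Y136.UB
  Pool.Agent.Q173.OS Pool.Agent.Q173.OG Pool.Agent.Q57.WM

section

variable {Ω : Type w} [Field Ω] [CharZero Ω] {R : WCoh.{v, w} Ω}

lemma mem_tot_iff (hR : R.IsW) {I : Type} [Finite I] {a : I → ℤ} {b : Basis I Ω R.V}
    {e h : Module.End Ω R.V} (hs : IsSl2 R.N b a e h) (hb : ∀ i, b i ∈ R.tot (a i)) (c : ℤ)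
    (x : R.V) : x ∈ R.tot c ↔ h x = (c : Ω) • x := by
  classical
  have := Fintype.ofFinite I
  constructor
  · intro h1
    rw [gr_eq_span hR.indep_tot b a hb c] at h1
    induction h1 using Submodule.span_induction with
    | mem y hy =>
      obtain ⟨i, hi, rfl⟩ := hy
      rw [hs.wt, show a i = c from hi]
    | zero => simp
    | add y z _ _ hy hz => rw [map_add, hy, hz, smul_add]
    | smul t y _ hy => rw [map_smul, hy, smul_comm]
  · intro h1
    have h2 : ∀ i, a i ≠ c → b.repr x i = 0 := by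
      intro i hi
      have h3 : h x = ∑ j, (b.repr x j * (a j : Ω)) • b j := by
        conv_lhs => rw [← b.sum_repr x]
        rw [map_sum]
        refine Finset.sum_congr rfl fun j _ => ?_
        rw [map_smul, hs.wt, smul_smul]
      have h4 : b.repr (h x) i = b.repr x i * (a i : Ω) := by
        rw [h3, b.repr_sum_self]
      rw [h1, map_smul, Finsupp.smul_apply, smul_eq_mul, mul_comm] at h4
      have h5 : b.repr x i * ((c : Ω) - (a i : Ω)) = 0 := by rw [mul_sub, h4, sub_self]
      rcases mul_eq_zero.1 h5 with h6 | h6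
      · exact h6
      · rw [sub_eq_zero] at h6
        exact absurd (Int.cast_injective h6).symm hi
    rw [← b.sum_repr x]
    refine Submodule.sum_mem _ fun i _ => ?_
    by_cases hi : a i = c
    · exact Submodule.smul_mem _ _ (hi ▸ hb i)
    · rw [h2 i hi, zero_smul]
      exact Submodule.zero_mem _

/-- A representation of `sl(2)` the weights of which are the weights of the Frobenius implies
purity. -/
theorem pure_of_ad (hR : R.IsW) {I : Type} [Finite I] {a : I → ℤ} (H : R.Ad a) : R.Pure := by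
  have := Fintype.ofFinite I
  obtain ⟨b, e, h, hs, hb⟩ := H
  rw [← pure_tot hR]
  intro m
  have hL := Pool.Agent.Y141.MW.stL Ω R.V R.N I b a e h hs m
  constructor
  · intro x hx h0
    refine hL.1 x ?_ h0
    have := (mem_tot_iff hR hs hb m x).1 hx
    simpa using this
  · intro y hy
    obtain ⟨x, hx, hxy⟩ := hL.2 y (by
      have := (mem_tot_iff hR hs hb _ y).1 hy
      simpa using this)
    exact ⟨x, (mem_tot_iff hR hs hb m x).2 (by simpa using hx), hxy⟩

end

section

variable {C : Type u} {Ω : Type w} [Field Ω] [CharZero Ω] [IsAlgClosed Ω]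
  {T : PTheory.{u, v, w} C Ω} {q : ℕ}

/-- The monodromy-weight conjecture passes to products. -/
theorem pure_prod (hq : 1 < q) (hT : T.IsKnown q) {X Y : C} (hX : ∀ m, (T.H X).MWPure q m)
    (hY : ∀ m, (T.H Y).MWPure q m) : ∀ m, (T.H (T.prod X Y)).MWPure q m := by
  obtain ⟨I, _, a, ha⟩ := ad_of_pure (isW_toW hq (hT.pre X)) ((pure_toW hq (hT.pre X)).2 hX)
  obtain ⟨J, _, b, hb⟩ := ad_of_pure (isW_toW hq (hT.pre Y)) ((pure_toW hq (hT.pre Y)).2 hY)
  obtain ⟨κ, hκ⟩ := T.kun hq hT X Y
  rw [← pure_toW hq (hT.pre _)]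
  exact pure_of_ad (isW_toW hq (hT.pre _)) (ha.prod hb hκ)

theorem pure_stk (hq : 1 < q) (hT : T.IsKnown q) {X E : C} (hX : ∀ m, (T.H X).MWPure q m)
    (hE : ∀ m, (T.H E).MWPure q m) (a : ℕ) : ∀ m, (T.H (T.stk X E a)).MWPure q m := by
  induction a with
  | zero => exact hX
  | succ a ih => exact pure_prod hq hT ih hE

/-- Varieties with good reduction. -/
theorem pure_good (hq : 1 < q) (hT : T.IsKnown q) {A : C} (hN : ∀ x, (T.H A).N x = 0)
    (hw : ∀ (i : ℕ) (α : Ω) (x : (T.H A).V), x ∈ (T.H A).gr i → x ≠ 0 →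
      (T.H A).F x = α • x → IsWeilNumber q i α) : ∀ m, (T.H A).MWPure q m := by
  intro m
  have hR := hT.pre A
  have h0 : ∀ c : ℤ, c ≠ 0 → (T.H A).exc q m c = ⊥ := by
    intro c hc
    rw [eq_bot_iff]
    refine iSup₂_le fun α hα => ?_
    intro x hx
    by_contra hx0
    obtain ⟨y, hy, hy0, hFy⟩ := exists_eigen_of_gen (hR.F_gr m) (Submodule.mem_inf.1 hx).1
      (Submodule.mem_inf.1 hx).2 hx0
    have h1 := weil_unique hq (hw m α y hy hy0 hFy) hα
    omega
  rw [P.mwPure_iff hq hR]
  intro a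
  rcases Nat.eq_zero_or_pos a with rfl | ha
  · exact ⟨fun x _ h => by simpa using h, fun y hy => ⟨y, by simpa using hy, by simp⟩⟩
  · constructor
    · intro x hx _
      rw [h0 a (by omega)] at hx
      exact (Submodule.mem_bot Ω).1 hx
    · intro y hy
      rw [h0 (-(a : ℤ)) (by omega)] at hy
      exact ⟨0, Submodule.zero_mem _, by rw [map_zero, (Submodule.mem_bot Ω).1 hy]⟩

end

end Pool.Agent.Q173.CP
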