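import Pool.Agent.Q173.OG.Rigid

/-!
# Galois cohomology of the cohomology groups of varieties over a local field
-/

set_option autoImplicit false

open Module TensorProduct

namespace Pool.Agent.Q173.CP

universe u v w

open Pool.Agent.Y143 Pool.Agent.Y163.MW Pool.Agent.Q173.OS Pool.Agent.Q173.OG

section

variable {Ω : Type w} [Field Ω]

/-- The action of the geometric Frobenius on the Tate twist `V(r)`: `F' = q ^ (-r) F`. -/
noncomputable def frobTwist (R : Coh.{v, w} Ω) (q r : ℕ) (x : R.V) : R.V :=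
  ((q : Ω) ^ r)⁻¹ • R.F x

/-- The differential `V → V ⊕ V`, `x ↦ ((F' - 1) x, N x)`, `F' = q ^ (-r) F`, of the complex which
computes the Galois cohomology of `V(r)`. -/
noncomputable def d0 (R : Coh.{v, w} Ω) (q r : ℕ) (x : R.V) : R.V × R.V :=
  (frobTwist R q r x - x, R.N x)

/-- The differential `V ⊕ V → V`, `(a, b) ↦ N a - (q F' - 1) b`, `F' = q ^ (-r) F`, of the complex
which computes the Galois cohomology of `V(r)`. -/
noncomputable def d1 (R : Coh.{v, w} Ω) (q r : ℕ) (z : R.V × R.V) : R.V :=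
  R.N z.1 - ((q : Ω) • frobTwist R q r z.2 - z.2)

/-- `H^0(K, H^m(X)(r)) = 0`. -/
def H0Zero (R : Coh.{v, w} Ω) (q m r : ℕ) : Prop :=
  ∀ x ∈ R.gr m, d0 R q r x = 0 → x = 0

/-- `H^1(K, H^m(X)(r)) = 0`. -/
def H1Zero (R : Coh.{v, w} Ω) (q m r : ℕ) : Prop :=
  ∀ z : R.V × R.V, z.1 ∈ R.gr m → z.2 ∈ R.gr m → d1 R q r z = 0 → ∃ x ∈ R.gr m, d0 R q r x = z

/-- `H^2(K, H^m(X)(r)) = 0`. -/
def H2Zero (R : Coh.{v, w} Ω) (q m r : ℕ) : Prop :=
  ∀ y ∈ R.gr m, ∃ z : R.V × R.V, z.1 ∈ R.gr m ∧ z.2 ∈ R.gr m ∧ d1 R q r z = y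

/-- `α` is an eigenvalue of `F` on `H^j`. -/
def Eig (R : Coh.{v, w} Ω) (j : ℕ) (α : Ω) : Prop := ∃ x ∈ R.gr j, x ≠ 0 ∧ R.F x = α • x

/-- `α` is an eigenvalue of `F` on the kernel of `N` on `H^j`. -/
def Vec (R : Coh.{v, w} Ω) (j : ℕ) (α : Ω) : Prop :=
  ∃ x ∈ R.gr j, x ≠ 0 ∧ R.N x = 0 ∧ R.F x = α • x

/-- The known properties of the cohomology of a variety with good reduction: `N = 0`, the eigenvalues
of `F` on `H^i` have weight `i`, and `1` is an eigenvalue on `H^0`. -/
structure IsGood [CharZero Ω] (R : Coh.{v, w} Ω) (q : ℕ) : Prop where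
  trivial : ∀ x, R.N x = 0
  pure : ∀ (i : ℕ) (α : Ω), Eig R i α → IsWeilNumber q i α
  unit : Eig R 0 1

end

/-- Products of members of `good` belong to `good`, and `good` is not empty. -/
structure IsClosed {C : Type u} (prod : C → C → C) (good : C → Prop) : Prop where
  point : ∃ A, good A
  prod : ∀ A B, good A → good B → good (prod A B)

/-- For every eigenvalue `α` of `F` on the cohomology of a member of the class there is an `A` in
`good` such that `q ^ s / α` is an eigenvalue of `F` on `H^i(A)` for some `i` and `s`. -/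
def HondaTate {C : Type u} {Ω : Type w} [Field Ω] (T : PTheory.{u, v, w} C Ω)
    (q : ℕ) (good : C → Prop) : Prop :=
  ∀ (X : C) (j : ℕ) (α : Ω), Eig (T.H X) j α →
    ∃ A, good A ∧ ∃ i s : ℕ, Eig (T.H A) i ((q : Ω) ^ s * α⁻¹)

/-- The known properties of the `ℓ`-adic cohomology of a class `C` of smooth proper varieties over a
local field `K` (residue field with `q` elements) which is closed under products and contains a
split Tate curve `E` and varieties with good reduction (`good A`):
* `base`: Frobenius, monodromy, Weil numbers, Poincare duality, Künneth formula;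
* `test`, `split`, `top`, `dim`: `E` is a curve with `N ≠ 0` on `H^1(E)`, `H^1(E)` contains an
  invariant element `≠ 0`, and `H^2(E) = Ω(-1)`;
* `closed`, `goodRed`: properties of the varieties with good reduction;
* `partner`: the theorem of Honda and Tate. -/
structure Known {C : Type u} {Ω : Type w} [Field Ω] [CharZero Ω] (T : PTheory.{u, v, w} C Ω)
    (q : ℕ) (E : C) (good : C → Prop) : Prop where
  base : T.IsKnown q
  test : IsTest (T.H E) q
  split : Vec (T.H E) 1 1
  top : Vec (T.H E) 2 (q : Ω)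
  dim : T.dim E = 1
  closed : IsClosed T.prod good
  goodRed : ∀ A, good A → IsGood (T.H A) q
  partner : HondaTate T q good

end Pool.Agent.Q173.CP
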