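import Pool.Agent.Q173.CP.Defs

/-!
# Invariant vectors and the vanishing of Galois cohomology
-/

set_option autoImplicit false

open Module TensorProduct

namespace Pool.Agent.Q173.CP

universe u v w

open Pool.Agent.Y143 Pool.Agent.Y163.MW Pool.Agent.Y163.MW.Coh Pool.Agent.Y136.UB
  Pool.Agent.Q173.OS Pool.Agent.Q173.OG Pool.Agent.Q57.WM

section lin

variable {Ω : Type w} [Field Ω] {V : Type v} [AddCommGroup V] [Module Ω V] [Module.Finite Ω V]

/-- The Euler characteristic of a complex `V → V ⊕ V → V` vanishes. -/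
lemma inj_of_exact (f : V →ₗ[Ω] V × V) (g : V × V →ₗ[Ω] V)
    (h : LinearMap.ker g ≤ LinearMap.range f) : Function.Injective f := by
  rw [← LinearMap.ker_eq_bot]
  have h1 := LinearMap.finrank_range_add_finrank_ker f
  have h2 := LinearMap.finrank_range_add_finrank_ker g
  have h3 := Submodule.finrank_mono h
  have h4 := Submodule.finrank_le (LinearMap.range g)
  rw [Module.finrank_prod] at h2
  exact Submodule.finrank_eq_zero.1 (by omega)

lemma exact_of (f : V →ₗ[Ω] V × V) (g : V × V →ₗ[Ω] V) (hgf : ∀ x, g (f x) = 0)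
    (hf : Function.Injective f) (hg : Function.Surjective g) :
    LinearMap.ker g ≤ LinearMap.range f := by
  have h0 : LinearMap.range f ≤ LinearMap.ker g := by
    rintro _ ⟨x, rfl⟩
    exact hgf x
  have h1 := LinearMap.finrank_range_add_finrank_ker f
  have h2 := LinearMap.finrank_range_add_finrank_ker g
  rw [LinearMap.ker_eq_bot.2 hf, finrank_bot] at h1
  rw [LinearMap.range_eq_top.2 hg, finrank_top, Module.finrank_prod] at h2
  exact (Submodule.eq_of_le_of_finrank_eq h0 (by omega)).ge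

end lin

section

variable {Ω : Type w} [Field Ω] {R R' R'' : Coh.{v, w} Ω}

lemma Vec.mul {κ : R.V ⊗[Ω] R'.V ≃ₗ[Ω] R''.V} (hκ : IsKunneth R R' R'' κ) {i j : ℕ} {α β : Ω}
    (h : Vec R i α) (h' : Vec R' j β) : Vec R'' (i + j) (α * β) := by
  obtain ⟨x, hx, hx0, hN, hF⟩ := h
  obtain ⟨y, hy, hy0, hN', hF'⟩ := h'
  refine ⟨κ (x ⊗ₜ y), hκ.degree i j x y hx hy, ?_, ?_, ?_⟩
  · intro h0
    exact tmul_ne_zero' hx0 hy0 (κ.map_eq_zero_iff.1 h0)
  · have := hκ.monodromy x y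
    unfold tm at this
    rw [this, hN, hN', zero_tmul, tmul_zero, map_zero, add_zero]
  · have := hκ.frob x y
    unfold tm at this
    rw [this, hF, hF', smul_tmul_smul, map_smul]

lemma d0_apply (R : Coh.{v, w} Ω) (q r : ℕ) (x : R.V) :
    d0 R q r x = (((q : Ω) ^ r)⁻¹ • R.F x - x, R.N x) := rfl

lemma d1_apply (R : Coh.{v, w} Ω) (q r : ℕ) (z : R.V × R.V) :
    d1 R q r z = R.N z.1 - ((q : Ω) • ((q : Ω) ^ r)⁻¹ • R.F z.2 - z.2) := rfl

lemma d0_eq_zero {q r : ℕ} (hq : (q : Ω) ≠ 0) (x : R.V) :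
    d0 R q r x = 0 ↔ R.F x = (q : Ω) ^ r • x ∧ R.N x = 0 := by
  have hr : (q : Ω) ^ r ≠ 0 := pow_ne_zero _ hq
  rw [d0_apply, Prod.mk_eq_zero, sub_eq_zero]
  refine and_congr_left fun _ => ⟨fun h => ?_, fun h => ?_⟩
  · rw [← h, smul_smul, mul_inv_cancel₀ hr, one_smul, h]
  · rw [h, smul_smul, inv_mul_cancel₀ hr, one_smul]

lemma h0Zero_iff {q m r : ℕ} (hq : (q : Ω) ≠ 0) :
    H0Zero R q m r ↔ ¬ Vec R m ((q : Ω) ^ r) := by
  constructor
  · rintro h ⟨x, hx, hx0, hN, hF⟩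
    exact hx0 (h x hx ((d0_eq_zero hq x).2 ⟨hF, hN⟩))
  · intro h x hx h0
    by_contra hx0
    obtain ⟨hF, hN⟩ := (d0_eq_zero hq x).1 h0
    exact h ⟨x, hx, hx0, hN, hF⟩

variable [CharZero Ω]

/-- The restriction of `d0` to `H^m`. -/
noncomputable def f0 (R : Coh.{v, w} Ω) (q m r : ℕ) (hF : Respects R.gr R.F)
    (hN : Respects R.gr R.N) : R.gr m →ₗ[Ω] R.gr m × R.gr m :=
  (((q : Ω) ^ r)⁻¹ • R.F.restrict (hF m) - LinearMap.id).prod (R.N.restrict (hN m))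

/-- The restriction of `d1` to `H^m`. -/
noncomputable def f1 (R : Coh.{v, w} Ω) (q m r : ℕ) (hF : Respects R.gr R.F)
    (hN : Respects R.gr R.N) : R.gr m × R.gr m →ₗ[Ω] R.gr m :=
  (R.N.restrict (hN m)).comp (LinearMap.fst Ω _ _) -
    ((q : Ω) • ((q : Ω) ^ r)⁻¹ • R.F.restrict (hF m) - LinearMap.id).comp (LinearMap.snd Ω _ _)

lemma f0_coe {q m r : ℕ} {hF : Respects R.gr R.F} {hN : Respects R.gr R.N} (x : R.gr m) :
    (((f0 R q m r hF hN x).1 : R.V), ((f0 R q m r hF hN x).2 : R.V)) = d0 R q r x := rfl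

lemma f1_coe {q m r : ℕ} {hF : Respects R.gr R.F} {hN : Respects R.gr R.N}
    (z : R.gr m × R.gr m) : (f1 R q m r hF hN z : R.V) = d1 R q r (z.1, z.2) := rfl

lemma h1Zero_iff {q m r : ℕ} (hF : Respects R.gr R.F) (hN : Respects R.gr R.N) :
    H1Zero R q m r ↔ LinearMap.ker (f1 R q m r hF hN) ≤ LinearMap.range (f0 R q m r hF hN) := by
  constructor
  · intro h z hz
    have h1 : d1 R q r ((z.1 : R.V), (z.2 : R.V)) = 0 := by
      rw [← f1_coe (hF := hF) (hN := hN), LinearMap.mem_ker.1 hz]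
      rfl
    obtain ⟨x, hx, hxz⟩ := h (z.1, z.2) z.1.2 z.2.2 h1
    refine ⟨⟨x, hx⟩, ?_⟩
    rw [← f0_coe (hF := hF) (hN := hN) ⟨x, hx⟩, Prod.mk.injEq] at hxz
    exact Prod.ext (Subtype.ext hxz.1) (Subtype.ext hxz.2)
  · intro h z hz1 hz2 hz
    have h1 : ((⟨z.1, hz1⟩, ⟨z.2, hz2⟩) : R.gr m × R.gr m) ∈ LinearMap.ker (f1 R q m r hF hN) := by
      rw [LinearMap.mem_ker]
      apply Subtype.ext
      rw [f1_coe]
      exact hz
    obtain ⟨x, hx⟩ := h h1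
    refine ⟨x, x.2, ?_⟩
    rw [← f0_coe (hF := hF) (hN := hN) x, hx]

lemma h0Zero_iff' {q m r : ℕ} (hF : Respects R.gr R.F) (hN : Respects R.gr R.N) :
    H0Zero R q m r ↔ Function.Injective (f0 R q m r hF hN) := by
  rw [injective_iff_map_eq_zero]
  constructor
  · intro h x hx
    apply Subtype.ext
    refine h x x.2 ?_
    rw [← f0_coe (hF := hF) (hN := hN) x, hx]
    rfl
  · intro h x hx h0
    have := h ⟨x, hx⟩ ?_
    · exact congrArg Subtype.val this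
    · rw [← f0_coe (hF := hF) (hN := hN) ⟨x, hx⟩, Prod.mk_eq_zero] at h0
      exact Prod.ext (Subtype.ext h0.1) (Subtype.ext h0.2)

lemma h2Zero_iff {q m r : ℕ} (hF : Respects R.gr R.F) (hN : Respects R.gr R.N) :
    H2Zero R q m r ↔ Function.Surjective (f1 R q m r hF hN) := by
  constructor
  · intro h y
    obtain ⟨z, hz1, hz2, hz⟩ := h y y.2
    refine ⟨(⟨z.1, hz1⟩, ⟨z.2, hz2⟩), ?_⟩
    apply Subtype.ext
    rw [f1_coe]
    exact hz
  · intro h y hy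
    obtain ⟨z, hz⟩ := h ⟨y, hy⟩
    refine ⟨(z.1, z.2), z.1.2, z.2.2, ?_⟩
    rw [← f1_coe (hF := hF) (hN := hN) z, hz]

variable {q : ℕ}

lemma f1_f0 (hq : 1 < q) (hR : IsPre R q) {m r : ℕ} (x : R.gr m) :
    f1 R q m r hR.F_gr hR.N_gr (f0 R q m r hR.F_gr hR.N_gr x) = 0 := by
  apply Subtype.ext
  rw [f1_coe, ZeroMemClass.coe_zero]
  have : d0 R q r (x : R.V) = (((f0 R q m r hR.F_gr hR.N_gr x).1 : R.V),
    ((f0 R q m r hR.F_gr hR.N_gr x).2 : R.V)) := rfl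
  rw [← this, d1_apply, d0_apply]
  simp only [map_sub, map_smul]
  rw [hR.N_F x, smul_comm ((q : Ω) ^ r)⁻¹ (q : Ω)]
  abel

/-- `H^1 = 0` implies `H^0 = 0`. -/
lemma h0_of_h1 (hR : IsPre R q) {m r : ℕ} (h : H1Zero R q m r) : H0Zero R q m r := by
  have := hR.finite
  rw [h0Zero_iff' hR.F_gr hR.N_gr]
  exact inj_of_exact _ _ ((h1Zero_iff hR.F_gr hR.N_gr).1 h)

/-- `H^0 = H^2 = 0` implies `H^1 = 0`. -/
lemma h1_of (hq : 1 < q) (hR : IsPre R q) {m r : ℕ} (h0 : H0Zero R q m r)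
    (h2 : H2Zero R q m r) : H1Zero R q m r := by
  have := hR.finite
  rw [h1Zero_iff hR.F_gr hR.N_gr]
  exact exact_of _ _ (f1_f0 hq hR) ((h0Zero_iff' hR.F_gr hR.N_gr).1 h0)
    ((h2Zero_iff hR.F_gr hR.N_gr).1 h2)

/-- If `H^m(X)` is mw pure and `m = 2 r - 1`, then `H^2(K, H^m(X)(r)) = 0`. -/
lemma h2_of_pure [IsAlgClosed Ω] (hq : 1 < q) (hR : IsPre R q) {m r : ℕ} (hmr : m + 1 = 2 * r)
    (h : R.MWPure q m) : H2Zero R q m r := by
  have := hR.finite
  have hq0 : (q : Ω) ≠ 0 := Nat.cast_ne_zero.2 (by omega)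
  have hr : (q : Ω) ^ r ≠ 0 := pow_ne_zero _ hq0
  rw [P.mwPure_iff hq hR] at h
  let D : R.V × R.V →ₗ[Ω] R.V := R.N.comp (LinearMap.fst Ω R.V R.V) -
    ((q : Ω) • ((q : Ω) ^ r)⁻¹ • R.F - LinearMap.id).comp (LinearMap.snd Ω R.V R.V)
  have hD : ∀ z, D z = d1 R q r z := fun _ => rfl
  let S : Submodule Ω R.V := ((R.gr m).prod (R.gr m)).map D
  suffices hS : R.gr m ≤ S by
    intro y hy
    obtain ⟨z, hz, hzy⟩ := hS hy
    exact ⟨z, hz.1, hz.2, hzy⟩
  rw [← P.iSup_exc hR m]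
  refine iSup_le fun c => ?_
  rcases lt_or_ge c 0 with hc | hc
  · intro y hy
    obtain ⟨a, rfl⟩ : ∃ a : ℕ, c = -((a + 1 : ℕ) : ℤ) := ⟨(-c - 1).toNat, by omega⟩
    obtain ⟨x, hx, hxy⟩ := (h (a + 1)).2 y hy
    refine ⟨((R.N ^ a) x, 0), ⟨?_, Submodule.zero_mem _⟩, ?_⟩
    · have hNk : ∀ k : ℕ, (R.N ^ k) x ∈ R.gr m := by
        intro k
        induction k with
        | zero => simpa using exc_le m _ hx
        | succ k ih =>
          rw [pow_succ', Module.End.mul_apply]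
          exact hR.N_gr m _ ih
      exact hNk a
    · rw [hD, d1_apply, map_zero, smul_zero, smul_zero, sub_zero, sub_zero, ← Module.End.mul_apply,
        ← pow_succ']
      exact hxy
  · refine iSup₂_le fun α hα => ?_
    intro y hy
    let U : Submodule Ω R.V := R.gr m ⊓ R.F.maxGenEigenspace α
    have hU : ∀ x ∈ U, R.F x ∈ U := by
      intro x hx
      obtain ⟨h1, h2⟩ := Submodule.mem_inf.1 hx
      exact Submodule.mem_inf.2 ⟨hR.F_gr m x h1, gen_map R.F (fun _ => rfl) h2⟩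
    let g : U →ₗ[Ω] U := (q : Ω) • ((q : Ω) ^ r)⁻¹ • R.F.restrict hU - LinearMap.id
    have hg : Function.Injective g := by
      rw [injective_iff_map_eq_zero]
      intro x hx
      by_contra hx0
      have hx1 : (x : R.V) ≠ 0 := fun h => hx0 (Subtype.ext h)
      have h3 : (q : Ω) • ((q : Ω) ^ r)⁻¹ • R.F (x : R.V) - (x : R.V) = 0 := congrArg Subtype.val hx
      rw [sub_eq_zero] at h3
      have h4 : R.F (x : R.V) = ((q : Ω) ^ r * (q : Ω)⁻¹) • (x : R.V) := by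
        conv_rhs => rw [← h3]
        rw [smul_smul, smul_smul, show (q : Ω) ^ r * (q : Ω)⁻¹ * (q : Ω) * ((q : Ω) ^ r)⁻¹ = 1 by
          field_simp, one_smul]
      obtain ⟨s, rfl⟩ : ∃ s, r = s + 1 := ⟨r - 1, by omega⟩
      rw [pow_succ, mul_assoc, mul_inv_cancel₀ hq0, mul_one] at h4
      have h5 := P.eigen_exc hq hR (m := m) (c := c) (x := (x : R.V)) (α := (q : Ω) ^ s)
        (Submodule.mem_iSup_of_mem α (Submodule.mem_iSup_of_mem hα x.2)) hx1 h4
      have h6 := weil_unique hq h5 (weil_natPow (by omega) s)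
      omega
    obtain ⟨b, hb⟩ := (LinearMap.injective_iff_surjective.1 hg) ⟨y, hy⟩
    refine ⟨(0, -(b : R.V)), ⟨Submodule.zero_mem _,
      Submodule.neg_mem _ (Submodule.mem_inf.1 b.2).1⟩, ?_⟩
    have hb' : (q : Ω) • ((q : Ω) ^ r)⁻¹ • R.F (b : R.V) - (b : R.V) = y := congrArg Subtype.val hb
    rw [hD, d1_apply, ← hb']
    simp only [map_zero, map_neg, smul_neg]
    abel

end

end Pool.Agent.Q173.CP
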