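import Pool.Agent.Q173.CP.Tate

/-!
# `(φ, N)`-modules
-/

set_option autoImplicit false

open Module TensorProduct

namespace Pool.Agent.Q173.CP

universe u v w

open Pool.Agent.Y143 Pool.Agent.Y163.MW Pool.Agent.Q173.OS Pool.Agent.Q173.OG

/-- A graded `(φ, N)`-module over `K₀`, for instance `⨁ H^m_HK(Y)`: a vector space `D` with
subspaces `gr m = H^m_HK(Y)`, a map `φ`, a power `F` of `φ` which is linear, and an operator `N`. -/
structure PhiN (K₀ : Type w) [Field K₀] where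
  /-- the module -/
  D : Type v
  [addCommGroup : AddCommGroup D]
  [module : Module K₀ D]
  /-- the part of degree `m` -/
  gr : ℕ → Submodule K₀ D
  /-- the semilinear Frobenius -/
  φ : D → D
  /-- the linear Frobenius `φ ^ f` -/
  F : Module.End K₀ D
  /-- the monodromy operator -/
  N : Module.End K₀ D

attribute [instance] PhiN.addCommGroup PhiN.module

/-- The axioms of a `(φ, N)`-module: `φ` is `σ`-semilinear, `N φ = p φ N`, `F = φ ^ f`, and `φ`
respects the degrees. -/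
structure PhiN.IsPhi {K₀ : Type w} [Field K₀] (M : PhiN.{v, w} K₀) (σ : K₀ ≃+* K₀) (p f : ℕ) :
    Prop where
  add : ∀ x y, M.φ (x + y) = M.φ x + M.φ y
  smul : ∀ (a : K₀) x, M.φ (a • x) = σ a • M.φ x
  deg : ∀ m, ∀ x ∈ M.gr m, M.φ x ∈ M.gr m
  mono : ∀ x, M.N (M.φ x) = (p : K₀) • M.φ (M.N x)
  frob : ∀ x, M.F x = M.φ^[f] x

/-- The extension of scalars to `Ω`. -/
noncomputable def PhiN.ext {K₀ : Type w} [Field K₀] (M : PhiN.{v, w} K₀) (Ω : Type w) [Field Ω]
    [Algebra K₀ Ω] : Coh.{max v w, w} Ω where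
  V := Ω ⊗[K₀] M.D
  gr := fun m => (M.gr m).baseChange Ω
  F := M.F.baseChange Ω
  N := M.N.baseChange Ω

/-- `D_cris(V)^(φ = 1) = 0` for `V = H^m(Y)(r)`: there is no `x ≠ 0` in `H^m_HK(Y)` such that
`N x = 0` and `φ x = p ^ r x`. -/
def PhiN.NoCris {K₀ : Type w} [Field K₀] (M : PhiN.{v, w} K₀) (p m r : ℕ) : Prop :=
  ∀ x ∈ M.gr m, M.N x = 0 → M.φ x = (p : K₀) ^ r • x → x = 0

section

variable {K₀ : Type w} [Field K₀] {M : PhiN.{v, w} K₀} {σ : K₀ ≃+* K₀} {p f : ℕ} {Ω : Type w}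
  [Field Ω] [Algebra K₀ Ω]

/-- The evaluation of `Ω ⊗ D` at a functional on `Ω`. -/
noncomputable def evl (M : PhiN.{v, w} K₀) (lam : Ω →ₗ[K₀] K₀) : Ω ⊗[K₀] M.D →ₗ[K₀] M.D :=
  (TensorProduct.lid K₀ M.D).toLinearMap ∘ₗ LinearMap.rTensor M.D lam

lemma evl_tmul (lam : Ω →ₗ[K₀] K₀) (a : Ω) (x : M.D) : evl M lam (a ⊗ₜ x) = lam a • x := by
  simp [evl]

lemma evl_ne {v : Ω ⊗[K₀] M.D} (hv : v ≠ 0) : ∃ lam : Ω →ₗ[K₀] K₀, evl M lam v ≠ 0 := by
  classical
  by_contra hcon
  push Not at hcon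
  apply hv
  let b := Basis.ofVectorSpace K₀ Ω
  apply (TensorProduct.equivFinsuppOfBasisLeft (N := M.D) b).injective
  rw [map_zero]
  refine Finsupp.ext fun i => ?_
  rw [TensorProduct.equivFinsuppOfBasisLeft_apply, Finsupp.zero_apply]
  exact hcon (b.coord i)

lemma evl_smul (lam : Ω →ₗ[K₀] K₀) (a : Ω) (v : Ω ⊗[K₀] M.D) :
    evl M lam (a • v) = evl M (lam ∘ₗ LinearMap.mulLeft K₀ a) v := by
  induction v using TensorProduct.induction_on with
  | zero => simp
  | tmul b x => rw [TensorProduct.smul_tmul', evl_tmul, evl_tmul]; rfl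
  | add x y hx hy => rw [smul_add, map_add, map_add, hx, hy]

lemma evl_baseChange (lam : Ω →ₗ[K₀] K₀) (T : Module.End K₀ M.D) (v : Ω ⊗[K₀] M.D) :
    evl M lam (T.baseChange Ω v) = T (evl M lam v) := by
  induction v using TensorProduct.induction_on with
  | zero => simp
  | tmul a x => rw [LinearMap.baseChange_tmul, evl_tmul, evl_tmul, map_smul]
  | add x y hx hy => rw [map_add, map_add, hx, hy, map_add, map_add]

lemma evl_mem {S : Submodule K₀ M.D} {v : Ω ⊗[K₀] M.D}
    (hv : v ∈ S.baseChange Ω) : ∀ lam : Ω →ₗ[K₀] K₀, evl M lam v ∈ S := by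
  rw [Submodule.baseChange_eq_span] at hv
  induction hv using Submodule.span_induction with
  | mem y hy =>
    intro lam
    obtain ⟨x, hx, rfl⟩ := hy
    rw [TensorProduct.mk_apply, evl_tmul]
    exact S.smul_mem _ hx
  | zero => intro lam; simp
  | add x y _ _ hx hy => intro lam; rw [map_add]; exact S.add_mem (hx lam) (hy lam)
  | smul a x _ hx => intro lam; rw [evl_smul]; exact hx _

lemma evl_smul_nat (lam : Ω →ₗ[K₀] K₀) (n : ℕ) (v : Ω ⊗[K₀] M.D) :
    evl M lam ((n : Ω) • v) = (n : K₀) • evl M lam v := by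
  rw [Nat.cast_smul_eq_nsmul, Nat.cast_smul_eq_nsmul, map_nsmul]

lemma PhiN.IsPhi.zero (hM : M.IsPhi σ p f) : M.φ 0 = 0 := by
  have := hM.add 0 0
  rw [add_zero] at this
  exact left_eq_add.1 this

lemma PhiN.IsPhi.sum (hM : M.IsPhi σ p f) {ι : Type*} (s : Finset ι) (g : ι → M.D) :
    M.φ (∑ i ∈ s, g i) = ∑ i ∈ s, M.φ (g i) := by
  classical
  induction s using Finset.induction_on with
  | empty => simpa using hM.zero
  | insert a s ha ih => rw [Finset.sum_insert ha, Finset.sum_insert ha, hM.add, ih]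

lemma PhiN.IsPhi.natCast (hM : M.IsPhi σ p f) (c : K₀) (hc : σ c = c) (x : M.D) :
    M.φ (c • x) = c • M.φ x := by rw [hM.smul, hc]

/-- Galois descent: a fixed vector of `(p ^ (-r) φ) ^ f` yields a fixed vector of `p ^ (-r) φ`. -/
theorem exists_fixed (hM : M.IsPhi σ p f) (hp : (p : K₀) ≠ 0) (hf : 0 < f)
    (hσ : ∀ a, σ^[f] a = a) (hσ' : ∀ i < f, ∀ j < f, (∀ a, σ^[i] a = σ^[j] a) → i = j)
    {m r : ℕ} {x : M.D} (hx : x ∈ M.gr m) (hx0 : x ≠ 0) (hN : M.N x = 0)
    (hF : M.F x = (p : K₀) ^ (f * r) • x) :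
    ∃ y ∈ M.gr m, y ≠ 0 ∧ M.N y = 0 ∧ M.φ y = (p : K₀) ^ r • y := by
  have hc : σ (((p : K₀) ^ r)⁻¹) = ((p : K₀) ^ r)⁻¹ := by
    rw [map_inv₀, map_pow, map_natCast]
  have hpr : (p : K₀) ^ r ≠ 0 := pow_ne_zero _ hp
  -- `ψ = p ^ (-r) φ`
  let ψ : M.D → M.D := fun z => ((p : K₀) ^ r)⁻¹ • M.φ z
  have hψ1 : ∀ z w, ψ (z + w) = ψ z + ψ w := fun z w => by
    show _ • M.φ (z + w) = _
    rw [hM.add, smul_add]
  have hψ2 : ∀ (a : K₀) z, ψ (a • z) = σ a • ψ z := fun a z => by
    show _ • M.φ (a • z) = _ • _ • M.φ z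
    rw [hM.smul, smul_comm]
  have hψ0 : ψ 0 = 0 := by
    show _ • M.φ 0 = _
    rw [hM.zero, smul_zero]
  have hψs : ∀ (s : Finset ℕ) (g : ℕ → M.D), ψ (∑ i ∈ s, g i) = ∑ i ∈ s, ψ (g i) := by
    intro s g
    show _ • M.φ _ = _
    rw [hM.sum, Finset.smul_sum]
  have hit : ∀ (i : ℕ) (a : K₀) (z : M.D), ψ^[i] (a • z) = σ^[i] a • ψ^[i] z := by
    intro i
    induction i with
    | zero => intro a z; rfl
    | succ i ih => intro a z; rw [Function.iterate_succ_apply, Function.iterate_succ_apply,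
        Function.iterate_succ_apply, hψ2, ih]
  have hφi : ∀ (i : ℕ) (z : M.D), ψ^[i] z = (((p : K₀) ^ r)⁻¹) ^ i • M.φ^[i] z := by
    intro i
    induction i with
    | zero => intro z; simp
    | succ i ih =>
      intro z
      rw [Function.iterate_succ_apply', ih, Function.iterate_succ_apply', hψ2, map_pow, hc,
        pow_succ, mul_smul]
  have hfix : ψ^[f] x = x := by
    rw [hφi, ← hM.frob, hF, smul_smul, inv_pow, ← pow_mul, mul_comm r f,
      inv_mul_cancel₀ (pow_ne_zero _ hp), one_smul]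
  have hgr : ∀ i, ψ^[i] x ∈ M.gr m := by
    intro i
    induction i with
    | zero => exact hx
    | succ i ih =>
      rw [Function.iterate_succ_apply']
      exact Submodule.smul_mem _ _ (hM.deg m _ ih)
  have hNi : ∀ i, M.N (ψ^[i] x) = 0 := by
    intro i
    induction i with
    | zero => exact hN
    | succ i ih =>
      rw [Function.iterate_succ_apply']
      show M.N (_ • M.φ _) = 0
      rw [map_smul, hM.mono, ih, hM.zero, smul_zero, smul_zero]
  -- independence of the powers of `σ`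
  obtain ⟨a, ha⟩ : ∃ a : K₀, ∑ i ∈ Finset.range f, ψ^[i] (a • x) ≠ 0 := by
    by_contra hcon
    push Not at hcon
    apply hx0
    have h1 : ∀ μ : Module.Dual K₀ M.D, μ x = 0 := by
      intro μ
      let τ : Monoid.End K₀ := (σ : K₀ →* K₀)
      let χ : Fin f → K₀ →* K₀ := fun i => (τ ^ (i : ℕ) : Monoid.End K₀)
      have hχ : ∀ (i : Fin f) (a : K₀), χ i a = σ^[i] a := by
        intro i a
        have h := Monoid.End.coe_pow K₀ τ (i : ℕ)
        exact congrFun h a
      have hinj : Function.Injective χ := by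
        intro i j hij
        apply Fin.ext
        refine hσ' i i.2 j j.2 fun a => ?_
        rw [← hχ, ← hχ, hij]
      have hli := (linearIndependent_monoidHom K₀ K₀).comp χ hinj
      rw [Fintype.linearIndependent_iff] at hli
      have h2 := hli (fun i => μ (ψ^[i] x)) ?_ ⟨0, hf⟩
      · simpa using h2
      · funext a
        have h3 := congrArg μ (hcon a)
        rw [map_sum, map_zero, Finset.sum_range] at h3
        rw [Finset.sum_apply, Pi.zero_apply, ← h3]
        refine Finset.sum_congr rfl fun i _ => ?_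
        rw [hit, map_smul]
        show μ (ψ^[i] x) • (χ i) a = _
        rw [hχ, smul_eq_mul, smul_eq_mul, mul_comm]
    exact (Module.forall_dual_apply_eq_zero_iff K₀ x).1 h1
  refine ⟨_, Submodule.sum_mem _ fun i _ => ?_, ha, ?_, ?_⟩
  · rw [hit]
    exact Submodule.smul_mem _ _ (hgr i)
  · rw [map_sum]
    refine Finset.sum_eq_zero fun i _ => ?_
    rw [hit, map_smul, hNi, smul_zero]
  · have h4 : ψ (∑ i ∈ Finset.range f, ψ^[i] (a • x)) = ∑ i ∈ Finset.range f, ψ^[i] (a • x) := by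
      rw [hψs]
      have h5 : ∀ i ∈ Finset.range f, ψ (ψ^[i] (a • x)) = ψ^[i + 1] (a • x) := fun i _ => by
        rw [Function.iterate_succ_apply']
      rw [Finset.sum_congr rfl h5]
      obtain ⟨g, rfl⟩ : ∃ g, f = g + 1 := ⟨f - 1, by omega⟩
      rw [Finset.sum_range_succ, Finset.sum_range_succ', hit (g + 1), hσ, hfix]
      rfl
    conv_rhs => rw [← h4]
    show _ = _ • _ • _
    rw [smul_smul, mul_inv_cancel₀ hpr, one_smul]

/-- `D_cris(V)^(φ = 1) = 0` in terms of the extension of scalars. -/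
theorem noCris_iff [CharZero K₀] [CharZero Ω] (hM : M.IsPhi σ p f) (hp : p ≠ 0) (hf : 0 < f)
    (hσ : ∀ a, σ^[f] a = a) (hσ' : ∀ i < f, ∀ j < f, (∀ a, σ^[i] a = σ^[j] a) → i = j)
    (m r : ℕ) : M.NoCris p m r ↔ ¬ Vec (M.ext Ω) m (((p ^ f : ℕ) : Ω) ^ r) := by
  have hp' : (p : K₀) ≠ 0 := Nat.cast_ne_zero.2 hp
  constructor
  · rintro h ⟨v', hv, hv0, hN, hF⟩
    obtain ⟨v, rfl⟩ : ∃ v : Ω ⊗[K₀] M.D, v = v' := ⟨v', rfl⟩
    obtain ⟨lam, hlam⟩ := evl_ne (M := M) hv0
    have hN' : M.N (evl M lam v) = 0 := by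
      rw [← evl_baseChange]
      have : (M.N.baseChange Ω) v = 0 := hN
      rw [this, map_zero]
    have hF' : M.F (evl M lam v) = (p : K₀) ^ (f * r) • evl M lam v := by
      rw [← evl_baseChange]
      have h1 : (M.F.baseChange Ω) v = (((p ^ f) ^ r : ℕ) : Ω) • v := by
        rw [Nat.cast_pow]
        exact hF
      rw [h1, evl_smul_nat]
      push_cast
      rw [← pow_mul]
    obtain ⟨y, hy, hy0, hyN, hyφ⟩ := exists_fixed hM hp' hf hσ hσ' (evl_mem hv lam) hlam hN' hF'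
    exact hy0 (h y hy hyN hyφ)
  · intro h x hx hN hφ
    by_contra hx0
    apply h
    have hit : ∀ i : ℕ, M.φ^[i] x = ((p : K₀) ^ r) ^ i • x := by
      intro i
      induction i with
      | zero => simp
      | succ i ih =>
        rw [Function.iterate_succ_apply', ih, hM.smul, hφ, map_pow, map_pow, map_natCast,
          smul_smul, pow_succ]
    refine ⟨(1 : Ω) ⊗ₜ x, Submodule.tmul_mem_baseChange_of_mem _ hx, ?_, ?_, ?_⟩
    · intro h0'
      have h0 : (1 : Ω) ⊗ₜ[K₀] x = (0 : Ω ⊗[K₀] M.D) := h0'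
      obtain ⟨μ, hμ⟩ : ∃ μ : Ω →ₗ[K₀] K₀, μ 1 ≠ 0 := by
        by_contra hcon
        push Not at hcon
        exact one_ne_zero ((Module.forall_dual_apply_eq_zero_iff K₀ (1 : Ω)).1 hcon)
      have h1 := congrArg (evl M μ) h0
      rw [evl_tmul, map_zero] at h1
      rcases smul_eq_zero.1 h1 with h2 | h2
      · exact hμ h2
      · exact hx0 h2
    · show (M.N.baseChange Ω) _ = 0
      rw [LinearMap.baseChange_tmul, hN, tmul_zero]
    · show (M.F.baseChange Ω) _ = _
      rw [LinearMap.baseChange_tmul, hM.frob, hit, ← pow_mul, ← Nat.cast_pow,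
        Nat.cast_smul_eq_nsmul, tmul_smul, ← Nat.cast_smul_eq_nsmul Ω]
      congr 1
      push_cast
      rw [← pow_mul, mul_comm]

end

/-- The Hyodo-Kato cohomology of a class `C` of smooth projective varieties over a `p`-adic field. -/
structure PhiTheory (C : Type u) (K₀ : Type w) [Field K₀] where
  /-- the product -/
  prod : C → C → C
  /-- the dimension -/
  dim : C → ℕ
  /-- the cohomology -/
  H : C → PhiN.{v, w} K₀

/-- The extension of scalars to `Ω`. -/
noncomputable def PhiTheory.ext {C : Type u} {K₀ : Type w} [Field K₀] (T : PhiTheory.{u, v, w} C K₀)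
    (Ω : Type w) [Field Ω] [Algebra K₀ Ω] : PTheory.{u, max v w, w} C Ω where
  prod := T.prod
  dim := T.dim
  H := fun X => (T.H X).ext Ω

/-- `σ` is an automorphism of order `f`. -/
structure IsFrobAut {K₀ : Type w} [Field K₀] (σ : K₀ ≃+* K₀) (f : ℕ) : Prop where
  pos : 0 < f
  order : ∀ a, σ^[f] a = a
  distinct : ∀ i < f, ∀ j < f, (∀ a, σ^[i] a = σ^[j] a) → i = j

/-- The known properties: `φ`, `N` are operators of `(φ, N)`-modules, `σ` has order `f`, and after
extension of scalars to `Ω` the linear Frobenius `F = φ ^ f` and `N` have the properties `Known`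
with `q = p ^ f`. -/
structure PhiTheory.IsPadic {C : Type u} {K₀ : Type w} [Field K₀] (T : PhiTheory.{u, v, w} C K₀)
    (Ω : Type w) [Field Ω] [CharZero Ω] [Algebra K₀ Ω] (σ : K₀ ≃+* K₀) (p f : ℕ) (E : C)
    (good : C → Prop) : Prop where
  frob : IsFrobAut σ f
  phi : ∀ X, (T.H X).IsPhi σ p f
  known : Known (T.ext Ω) (p ^ f) E good

end Pool.Agent.Q173.CP
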