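import Pool.Agent.Q173.CP.Main
import Pool.Agent.Q173.CP.Ad

/-!
# Tate classes of too low degree
-/

set_option autoImplicit false

open Module TensorProduct

namespace Pool.Agent.Q173.CP

universe u v w

open Pool.Agent.Y143 Pool.Agent.Y163.MW Pool.Agent.Y163.MW.Coh Pool.Agent.Y136.UB
  Pool.Agent.Q173.OS Pool.Agent.Q173.OG Pool.Agent.Q57.WM

section

variable {C : Type u} {Ω : Type w} [Field Ω] [CharZero Ω] [IsAlgClosed Ω]
  {T : PTheory.{u, v, w} C Ω} {q : ℕ} {E : C} {good : C → Prop}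

/-- Invariant elements of `H^1(E)` raise the degree. -/
lemma raise (hK : Known T q E good) {X : C} {j : ℕ} {α : Ω} (a s : ℕ)
    (h : Vec (T.H (T.stk X E a)) j α) : Vec (T.H (T.stk X E (a + s))) (j + s) α := by
  induction s with
  | zero => exact h
  | succ s ih =>
    obtain ⟨κ, hκ⟩ := hK.base.kunneth (T.stk X E (a + s)) E
    have h2 := Vec.mul hκ ih hK.split
    rw [mul_one] at h2
    exact h2

/-- Partners. -/
lemma Known.vec (hK : Known T q E good) (hq : 1 < q) {X : C} {j : ℕ} {α : Ω} {wt : ℤ}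
    (h : Vec (T.H X) j α) (hw : IsWeilNumber q wt α) :
    ∃ A, good A ∧ ∃ i s : ℕ, Vec (T.H A) i ((q : Ω) ^ s * α⁻¹) ∧ (i : ℤ) + wt = 2 * s := by
  obtain ⟨x, hx, hx0, hN, hF⟩ := h
  obtain ⟨A, hA, i, s, y, hy, hy0, hFy⟩ := hK.partner X j α ⟨x, hx, hx0, hF⟩
  refine ⟨A, hA, i, s, ⟨y, hy, hy0, (hK.goodRed A hA).trivial y, hFy⟩, ?_⟩
  have h1 := (hK.goodRed A hA).pure i _ ⟨y, hy, hy0, hFy⟩
  have hα : α ≠ 0 := by
    rintro rfl
    have h2 := hw.2 0 (by
      rw [minpoly.zero]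
      simp)
    rw [norm_zero] at h2
    have : (0 : ℝ) < (q : ℝ) ^ ((wt : ℝ) / 2) := Real.rpow_pos_of_pos (by positivity) _
    linarith
  have h2 := weil_mul (by omega) h1 hw
  rw [mul_assoc, inv_mul_cancel₀ hα, mul_one] at h2
  exact weil_unique hq h2 (weil_natPow (by omega) s)

/-- If the conjecture fails for `X`, it is violated by an eigenvector in the kernel of `N` on
`X × E^l`. -/
lemma bad_stk (hK : Known T q E good) (hq : 1 < q) {X : C} (h : ¬ ∀ m, (T.H X).MWPure q m) :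
    ∃ (l j : ℕ) (α : Ω) (wt : ℤ), Vec (T.H (T.stk X E l)) j α ∧ IsWeilNumber q wt α ∧
      (j : ℤ) < wt := by
  have hT := hK.base
  obtain ⟨e, u, hu⟩ := isTest_one hq (hT.pre E) hK.test
  rw [← pure_toW hq (hT.pre X)] at h
  obtain ⟨j, c, l, hc, -, hs⟩ := exists_bad' (isW_toW hq (hT.pre X)) (T.sym hq hT X) h
  have h1 := str_stk (H := fun X => toW (T.H X) q) (fun X => isW_toW hq (hT.pre X))
    (T.kun hq hT) hu l j l c hs le_rfl
  by_contra hcon
  push Not at hcon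
  have h2 : InvBoundDeg (T.H (T.stk X E l)) q (j + l) 0 := by
    intro α x hx hx0 hN hF wt hw
    have := hcon l (j + l) α wt ⟨x, hx, hx0, hN, hF⟩ hw
    omega
  have h3 := h1.le ((bd_toW hq (hT.pre _) _ _).2 h2)
  omega

/-- If the conjecture fails for `X`, it is violated by an eigenvector in the kernel of `N` on
`X × X`. -/
lemma bad_sq (hK : Known T q E good) (hq : 1 < q) {X : C} (h : ¬ ∀ m, (T.H X).MWPure q m) :
    ∃ (j : ℕ) (α : Ω) (wt : ℤ), Vec (T.H (T.prod X X)) j α ∧ IsWeilNumber q wt α ∧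
      (j : ℤ) < wt := by
  have hT := hK.base
  rw [← pure_toW hq (hT.pre X)] at h
  obtain ⟨j, c, l, hc, -, hs⟩ := exists_bad' (isW_toW hq (hT.pre X)) (T.sym hq hT X) h
  obtain ⟨κ, hκ⟩ := T.kun hq hT X X
  have h1 := hs.square (isW_toW hq (hT.pre X)) hκ
  by_contra hcon
  push Not at hcon
  have h2 : InvBoundDeg (T.H (T.prod X X)) q (j + j) 0 := by
    intro α x hx hx0 hN hF wt hw
    have := hcon (j + j) α wt ⟨x, hx, hx0, hN, hF⟩ hw
    omega
  have h3 := h1.le ((bd_toW hq (hT.pre _) _ _).2 h2)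
  omega

/-- A vector with eigenvalue `α` of weight `> j` in the kernel of `N` yields, after a product with a
variety with good reduction, a Tate class of too low degree. -/
lemma tate_of_vec (hK : Known T q E good) (hq : 1 < q) {Y : C} {j : ℕ} {α : Ω} {wt : ℤ}
    (h : Vec (T.H Y) j α) (hw : IsWeilNumber q wt α) (hj : (j : ℤ) < wt) :
    ∃ A, good A ∧ ∃ m r : ℕ, m < 2 * r ∧ Vec (T.H (T.prod Y A)) m ((q : Ω) ^ r) := by
  obtain ⟨A, hA, i, s, hv, hi⟩ := hK.vec hq h hw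
  obtain ⟨κ, hκ⟩ := hK.base.kunneth Y A
  have h1 := Vec.mul hκ h hv
  have hα : α ≠ 0 := by
    rintro rfl
    obtain ⟨y, hy, hy0, hN, hF⟩ := hv
    have h2 := (hK.goodRed A hA).pure i _ ⟨y, hy, hy0, hF⟩
    rw [inv_zero, mul_zero] at h2
    have h3 := h2.2 0 (by rw [minpoly.zero]; simp)
    rw [norm_zero] at h3
    have : (0 : ℝ) < (q : ℝ) ^ (((i : ℤ) : ℝ) / 2) := Real.rpow_pos_of_pos (by positivity) _
    linarith
  rw [mul_comm ((q : Ω) ^ s), mul_inv_cancel_left₀ hα] at h1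
  exact ⟨A, hA, j + i, s, by omega, h1⟩

/-- The same with a class in degree `2 r - 1`. -/
lemma central_of_vec (hK : Known T q E good) (hq : 1 < q) {X : C} {a j : ℕ} {α : Ω} {wt : ℤ}
    (h : Vec (T.H (T.stk X E a)) j α) (hw : IsWeilNumber q wt α) (hj : (j : ℤ) < wt) :
    ∃ A b, good A ∧ ∃ m r : ℕ, m + 1 = 2 * r ∧
      Vec (T.H (T.prod (T.stk X E b) A)) m ((q : Ω) ^ r) := by
  obtain ⟨A, hA, i, s, hv, hi⟩ := hK.vec hq h hw
  have h0 := raise hK a (wt - j - 1).toNat h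
  obtain ⟨κ, hκ⟩ := hK.base.kunneth (T.stk X E (a + (wt - j - 1).toNat)) A
  have h1 := Vec.mul hκ h0 hv
  have hα : α ≠ 0 := by
    rintro rfl
    obtain ⟨y, hy, hy0, hN, hF⟩ := hv
    have h2 := (hK.goodRed A hA).pure i _ ⟨y, hy, hy0, hF⟩
    rw [inv_zero, mul_zero] at h2
    have h3 := h2.2 0 (by rw [minpoly.zero]; simp)
    rw [norm_zero] at h3
    have : (0 : ℝ) < (q : ℝ) ^ (((i : ℤ) : ℝ) / 2) := Real.rpow_pos_of_pos (by positivity) _
    linarith
  rw [mul_comm ((q : Ω) ^ s), mul_inv_cancel_left₀ hα] at h1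
  exact ⟨A, _, hA, _, s, by omega, h1⟩

/-- Powers. -/
lemma vec_pw (hK : Known T q E good) {Y : C} {m : ℕ} {α : Ω} (h : Vec (T.H Y) m α) (n : ℕ) :
    Vec (T.H (T.pw Y n)) ((n + 1) * m) (α ^ (n + 1)) := by
  induction n with
  | zero =>
    have h' : Vec (T.H (T.pw Y 0)) m α := h
    simpa using h'
  | succ n ih =>
    obtain ⟨κ, hκ⟩ := hK.base.kunneth Y (T.pw Y n)
    have h1 : Vec (T.H (T.pw Y (n + 1))) (m + (n + 1) * m) (α * α ^ (n + 1)) := Vec.mul hκ h ih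
    rwa [show m + (n + 1) * m = (n + 1 + 1) * m by ring, ← pow_succ'] at h1

/-- The conjecture implies that there are no Tate classes of too low degree. -/
lemma no_tate (hq : 1 < q) (hT : T.IsKnown q) {Y : C} (h : ∀ m, (T.H Y).MWPure q m) {m r : ℕ}
    (hm : m < 2 * r) : ¬ Vec (T.H Y) m ((q : Ω) ^ r) := by
  rintro ⟨x, hx, hx0, hN, hF⟩
  have h1 := T.bound_self hq hT h m _ x hx hx0 hN hF (2 * (r : ℤ)) (weil_natPow (by omega) r)
  omega

/-- Units keep the degree. -/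
lemma keep (hK : Known T q E good) {X : C} {j : ℕ} {α : Ω} (a s : ℕ)
    (h : Vec (T.H (T.stk X E a)) j α) : Vec (T.H (T.stk X E (a + s))) j α := by
  induction s with
  | zero => exact h
  | succ s ih =>
    obtain ⟨κ, hκ⟩ := hK.base.kunneth (T.stk X E (a + s)) E
    obtain ⟨u, hu, hu0, hN, hF⟩ := hK.test.unit
    have h1 : Vec (T.H E) 0 (1 : Ω) := ⟨u, hu, hu0, hN, by rw [hF, one_smul]⟩
    have h2 := Vec.mul hκ ih h1
    rw [mul_one] at h2
    exact h2

lemma dim_stk (hK : Known T q E good) (Y : C) (s : ℕ) : T.dim (T.stk Y E s) = T.dim Y + s := by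
  induction s with
  | zero => rfl
  | succ s ih =>
    have h : T.dim (T.stk Y E (s + 1)) = T.dim (T.stk Y E s) + T.dim E := hK.base.dim_prod _ _
    rw [h, ih, hK.dim, add_assoc]

/-- Classes in `H^2(E)` raise the degree by two. -/
lemma shift (hK : Known T q E good) {Y : C} {j : ℕ} {α : Ω} (h : Vec (T.H Y) j α) (s : ℕ) :
    Vec (T.H (T.stk Y E s)) (j + 2 * s) (α * (q : Ω) ^ s) := by
  induction s with
  | zero =>
    have h' : Vec (T.H (T.stk Y E 0)) j α := h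
    simpa using h'
  | succ s ih =>
    obtain ⟨κ, hκ⟩ := hK.base.kunneth (T.stk Y E s) E
    have h2 := Vec.mul hκ ih hK.top
    rw [show j + 2 * s + 2 = j + 2 * (s + 1) by ring, mul_assoc, ← pow_succ] at h2
    exact h2

/-- A Tate class in `H^(2 r - 1)(Y)(r)` yields one in the middle cohomology of a variety of odd
dimension. -/
lemma mid_of_central (hK : Known T q E good) {Y : C} {m r : ℕ} (hm : m + 1 = 2 * r)
    (h : Vec (T.H Y) m ((q : Ω) ^ r)) : ∃ (Y' : C) (r' : ℕ), T.dim Y' + 1 = 2 * r' ∧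
      Vec (T.H Y') (T.dim Y') ((q : Ω) ^ r') := by
  rcases Nat.le_total (T.dim Y) m with hd | hd
  · have h1 := keep hK 0 (m - T.dim Y) h
    rw [zero_add] at h1
    have h2 := dim_stk hK Y (m - T.dim Y)
    refine ⟨T.stk Y E (m - T.dim Y), r, by omega, ?_⟩
    rw [h2, Nat.add_sub_cancel' hd]
    exact h1
  · have h1 := shift hK h (T.dim Y - m)
    rw [← pow_add] at h1
    have h2 := dim_stk hK Y (T.dim Y - m)
    refine ⟨T.stk Y E (T.dim Y - m), r + (T.dim Y - m), by omega, ?_⟩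
    rw [h2, show T.dim Y + (T.dim Y - m) = m + 2 * (T.dim Y - m) by omega]
    exact h1

lemma Known.one (hK : Known T q E good) {A : C} (hA : good A) : Vec (T.H A) 0 (1 : Ω) := by
  obtain ⟨u, hu, hu0, hF⟩ := (hK.goodRed A hA).unit
  exact ⟨u, hu, hu0, (hK.goodRed A hA).trivial u, hF⟩

lemma weil_ne_zero (hq : 1 < q) {wt : ℤ} {α : Ω} (hw : IsWeilNumber q wt α) : α ≠ 0 := by
  rintro rfl
  have h2 := hw.2 0 (by
    rw [minpoly.zero]
    simp)
  rw [norm_zero] at h2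
  have : (0 : ℝ) < (q : ℝ) ^ ((wt : ℝ) / 2) := Real.rpow_pos_of_pos (by positivity) _
  linarith

/-- One partner for a finite set of numbers. -/
lemma partner_finset (hK : Known T q E good) (hq : 1 < q) (S : Finset Ω)
    (hS : ∀ α ∈ S, ∃ (X : C) (j : ℕ) (wt : ℤ), Vec (T.H X) j α ∧ IsWeilNumber q wt α) :
    ∃ A, good A ∧ ∀ α ∈ S, ∀ wt, IsWeilNumber q wt α →
      ∃ i s : ℕ, Vec (T.H A) i ((q : Ω) ^ s * α⁻¹) ∧ (i : ℤ) + wt = 2 * s := by
  classical
  induction S using Finset.induction_on with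
  | empty =>
    obtain ⟨A, hA⟩ := hK.closed.point
    exact ⟨A, hA, fun α hα => absurd hα (Finset.notMem_empty α)⟩
  | insert α S hα ih =>
    obtain ⟨A, hA, hA'⟩ := ih fun β hβ => hS β (Finset.mem_insert_of_mem hβ)
    obtain ⟨X, j, wt, hv, hw⟩ := hS α (Finset.mem_insert_self α S)
    obtain ⟨B, hB, i, s, hvB, hi⟩ := hK.vec hq hv hw
    obtain ⟨κ, hκ⟩ := hK.base.kunneth A B
    refine ⟨T.prod A B, hK.closed.prod A B hA hB, fun β hβ wt' hw' => ?_⟩
    rcases Finset.mem_insert.1 hβ with rfl | hβ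
    · have := weil_unique hq hw hw'
      subst this
      have h1 := Vec.mul hκ (hK.one hA) hvB
      rw [zero_add, one_mul] at h1
      exact ⟨i, s, h1, hi⟩
    · obtain ⟨i', s', h', hi'⟩ := hA' β hβ wt' hw'
      have h1 := Vec.mul hκ h' (hK.one hB)
      rw [add_zero, mul_one] at h1
      exact ⟨i', s', h1, hi'⟩

/-- A string of length `0` and centre `c` yields an eigenvector of weight `j + c` in the kernel of
`N`. -/
lemma vec_of_str {R : Coh.{v, w} Ω} (hq : 1 < q) (hR : IsPre R q) {j : ℕ} {c : ℤ}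
    (h : (toW R q).Str j c 0) : ∃ α, Vec R j α ∧ IsWeilNumber q (j + c) α := by
  have := hR.finite
  obtain ⟨v, hv, h0, h1⟩ := h
  rw [zero_add, pow_one] at h0
  rw [pow_zero, Module.End.one_apply] at h1
  rw [Nat.cast_zero, add_zero] at hv
  let S : Submodule Ω R.V := R.exc q j c ⊓ LinearMap.ker R.N
  have hS : ∀ x ∈ S, R.F x ∈ S := by
    intro x hx
    obtain ⟨hx1, hx2⟩ := Submodule.mem_inf.1 hx
    refine Submodule.mem_inf.2 ⟨P.F_exc hR j c x hx1, ?_⟩
    rw [LinearMap.mem_ker] at hx2 ⊢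
    rw [hR.N_F x, hx2, map_zero, smul_zero]
  have hnt : Nontrivial S := ⟨⟨⟨v, Submodule.mem_inf.2 ⟨hv, LinearMap.mem_ker.2 h0⟩⟩, 0,
    fun h => h1 (congrArg Subtype.val h)⟩⟩
  obtain ⟨α, hα⟩ := Module.End.exists_eigenvalue (R.F.restrict hS)
  obtain ⟨x, hx⟩ := hα.exists_hasEigenvector
  have hx1 := (Submodule.mem_inf.1 x.2)
  have hFx : R.F x = α • (x : R.V) := congrArg Subtype.val hx.apply_eq_smul
  have hx0 : (x : R.V) ≠ 0 := fun h => hx.2 (Subtype.ext h)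
  exact ⟨α, ⟨x, Coh.exc_le j c hx1.1, hx0, LinearMap.mem_ker.1 hx1.2, hFx⟩,
    P.eigen_exc hq hR hx1.1 hx0 hFx⟩

/-- For all the eigenvalues `α` of `F` on the kernel of `N` on the cohomology of `Y`, some
`q ^ s / α` is an eigenvalue of `F` on the cohomology of `A`. -/
def IsPartner (T : PTheory.{u, v, w} C Ω) (q : ℕ) (A Y : C) : Prop :=
  ∀ (j : ℕ) (α : Ω), Vec (T.H Y) j α → ∃ i s : ℕ, Vec (T.H A) i ((q : Ω) ^ s * α⁻¹)

lemma IsPartner.wt (hK : Known T q E good) (hq : 1 < q) {A Y : C} (h : IsPartner T q A Y)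
    (hA : good A) {j : ℕ} {α : Ω} (hv : Vec (T.H Y) j α) {wt : ℤ} (hw : IsWeilNumber q wt α) :
    ∃ i s : ℕ, Vec (T.H A) i ((q : Ω) ^ s * α⁻¹) ∧ (i : ℤ) + wt = 2 * s := by
  obtain ⟨i, s, hx⟩ := h j α hv
  refine ⟨i, s, hx, ?_⟩
  obtain ⟨y, hy, hy0, -, hFy⟩ := hx
  have h2 := weil_mul (by omega) ((hK.goodRed A hA).pure i _ ⟨y, hy, hy0, hFy⟩) hw
  rw [mul_assoc, inv_mul_cancel₀ (weil_ne_zero hq hw), mul_one] at h2
  exact weil_unique hq h2 (weil_natPow (by omega) s)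

/-- If the conjecture fails for `X` and holds for `X` above `k + 1`, then there is a Tate class in
`H^(2 r - 1)(X × E^k × A)(r)` if `A` is a partner of `X × E^k`. -/
theorem central_of_bad (hK : Known T q E good) (hq : 1 < q) {X A : C} {k : ℕ} (hA : good A)
    (hp : IsPartner T q A (T.stk X E k)) (hk : ∀ m, WMAbove (T.H X) q m (k + 1))
    (h : ¬ ∀ m, (T.H X).MWPure q m) : ∃ m r : ℕ, m + 1 = 2 * r ∧
      Vec (T.H (T.prod (T.stk X E k) A)) m ((q : Ω) ^ r) := by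
  have hT := hK.base
  obtain ⟨e, u, hu⟩ := isTest_one hq (hT.pre E) hK.test
  rw [← pure_toW hq (hT.pre X)] at h
  obtain ⟨j, c, l, hc, hcl, hs⟩ := exists_bad' (isW_toW hq (hT.pre X)) (T.sym hq hT X) h
  have hcl := hcl (k + 1) (fun m => hk m)
  have h1 := str_stk (H := fun X => toW (T.H X) q) (fun X => isW_toW hq (hT.pre X))
    (T.kun hq hT) hu l j l c hs le_rfl
  obtain ⟨α, hv, hw⟩ := vec_of_str hq (hT.pre (T.stk X E l)) h1
  obtain ⟨d, rfl⟩ : ∃ d : ℕ, c = d + 1 := ⟨(c - 1).toNat, by omega⟩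
  have h2 := raise hK l d hv
  have h3 := keep hK (l + d) (k - (l + d)) h2
  rw [show l + d + (k - (l + d)) = k by push_cast at hcl; omega] at h3
  obtain ⟨i, s, hi, his⟩ := hp.wt hK hq hA h3 hw
  obtain ⟨κ, hκ⟩ := hT.kunneth (T.stk X E k) A
  have h4 := Vec.mul hκ h3 hi
  rw [mul_comm ((q : Ω) ^ s), mul_inv_cancel_left₀ (weil_ne_zero hq hw)] at h4
  exact ⟨_, s, by push_cast at his; omega, h4⟩

/-- The same for `X × X`. -/
theorem low_of_bad (hK : Known T q E good) (hq : 1 < q) {X A : C} (hA : good A)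
    (hp : IsPartner T q A (T.prod X X)) (h : ¬ ∀ m, (T.H X).MWPure q m) :
    ∃ m r : ℕ, m < 2 * r ∧ Vec (T.H (T.prod (T.prod X X) A)) m ((q : Ω) ^ r) := by
  have hT := hK.base
  rw [← pure_toW hq (hT.pre X)] at h
  obtain ⟨j, c, l, hc, -, hs⟩ := exists_bad' (isW_toW hq (hT.pre X)) (T.sym hq hT X) h
  obtain ⟨κ, hκ⟩ := T.kun hq hT X X
  have h1 := hs.square (isW_toW hq (hT.pre X)) hκ
  obtain ⟨α, hv, hw⟩ := vec_of_str hq (hT.pre (T.prod X X)) h1
  obtain ⟨i, s, hi, his⟩ := hp.wt hK hq hA hv hw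
  obtain ⟨κ', hκ'⟩ := hT.kunneth (T.prod X X) A
  have h4 := Vec.mul hκ' hv hi
  rw [mul_comm ((q : Ω) ^ s), mul_inv_cancel_left₀ (weil_ne_zero hq hw)] at h4
  exact ⟨_, s, by push_cast at his; omega, h4⟩

/-- The eigenvalues of `F`. -/
lemma finite_eigen (hT : T.IsKnown q) (Y : C) :
    {α : Ω | ∃ j, Vec (T.H Y) j α}.Finite := by
  have := (hT.pre Y).finite
  refine (Module.End.finite_hasEigenvalue (T.H Y).F).subset ?_
  rintro α ⟨j, x, -, hx0, -, hF⟩
  exact Module.End.hasEigenvalue_of_hasEigenvector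
    (Module.End.hasEigenvector_iff.2 ⟨Module.End.mem_eigenspace_iff.2 hF, hx0⟩)

lemma weil_of_vec (hT : T.IsKnown q) {Y : C} {j : ℕ} {α : Ω} (h : Vec (T.H Y) j α) :
    ∃ wt : ℤ, IsWeilNumber q wt α := by
  obtain ⟨x, hx, hx0, -, hF⟩ := h
  exact (hT.pre Y).weil j α x hx hx0 hF

/-- Every `Y` has a partner with good reduction. -/
theorem exists_partner (hK : Known T q E good) (hq : 1 < q) (Y : C) :
    ∃ A, good A ∧ IsPartner T q A Y := by
  have hfin := finite_eigen hK.base Y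
  obtain ⟨A, hA, hA'⟩ := partner_finset hK hq hfin.toFinset (by
    intro α hα
    obtain ⟨j, hj⟩ := hfin.mem_toFinset.1 hα
    obtain ⟨wt, hw⟩ := weil_of_vec hK.base hj
    exact ⟨Y, j, wt, hj, hw⟩)
  refine ⟨A, hA, fun j α hv => ?_⟩
  obtain ⟨wt, hw⟩ := weil_of_vec hK.base hv
  obtain ⟨i, s, h1, -⟩ := hA' α (hfin.mem_toFinset.2 ⟨j, hv⟩) wt hw
  exact ⟨i, s, h1⟩

end

end Pool.Agent.Q173.CP
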